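import Mathlib

/-!
# Linear clocks

A system of partial linear maps on a complex vector space; a clock is such a system in which every
nonzero vector dies after a bounded number of steps, with two distinguished vectors `a`, `b` such
that all ways from `a` to `b` have exactly `N` steps.  `up`: from a clock of length `N` on `V` one
gets a clock of length `2 ^ N * (N + 1)` on `V × V × V`.
-/

set_option autoImplicit false

namespace Pool.Agent.P8H43.NT

/-- A system of partial linear maps: the letter `i` may be applied to the vectors of `K i`, and acts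
on them by `A i`. -/
structure Sys (I V : Type) [AddCommGroup V] [Module ℂ V] where
  K : I → Submodule ℂ V
  A : I → V →ₗ[ℂ] V

section

variable {I V : Type} [AddCommGroup V] [Module ℂ V]

/-- the letters of the word can be applied one after the other -/
def Sys.Alive (S : Sys I V) : List I → V → Prop
  | [], _ => True
  | i :: w, x => x ∈ S.K i ∧ S.Alive w (S.A i x)

/-- the result -/
def Sys.run (S : Sys I V) : List I → V → V
  | [], x => x
  | i :: w, x => S.run w (S.A i x)

/-- A clock of length `N`: all vectors die after at most `L` steps, and all ways from `a` to `b`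
have exactly `N` steps. -/
structure IsClock (S : Sys I V) (a b : V) (N L : ℕ) : Prop where
  inj : ∀ i, ∀ x ∈ S.K i, S.A i x = 0 → x = 0
  ha : a ≠ 0
  hb : b ≠ 0
  mort : ∀ w : List I, L ≤ w.length → ∀ x, S.Alive w x → x = 0
  fresh : ∀ (w : List I) (c : ℂ), S.Alive w a → S.run w a = c • a → w = []
  exact' : ∀ (w : List I) (c : ℂ), S.Alive w a → S.run w a = c • b → c = 1 ∧ w.length = N
  ex : ∃ w : List I, S.Alive w a ∧ S.run w a = b

theorem alive_append (S : Sys I V) (u w : List I) (x : V) :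
    S.Alive (u ++ w) x ↔ S.Alive u x ∧ S.Alive w (S.run u x) := by
  induction u generalizing x with
  | nil => simp [Sys.Alive, Sys.run]
  | cons i u ih => simp [Sys.Alive, Sys.run, ih, and_assoc]

theorem run_append (S : Sys I V) (u w : List I) (x : V) :
    S.run (u ++ w) x = S.run w (S.run u x) := by
  induction u generalizing x with
  | nil => simp [Sys.run]
  | cons i u ih => simp [Sys.run, ih]

theorem alive_add (S : Sys I V) (w : List I) {x y : V} (hx : S.Alive w x) (hy : S.Alive w y) :
    S.Alive w (x + y) := by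
  induction w generalizing x y with
  | nil => trivial
  | cons i w ih =>
    refine ⟨(S.K i).add_mem hx.1 hy.1, ?_⟩
    rw [map_add]
    exact ih hx.2 hy.2

theorem alive_smul (S : Sys I V) (w : List I) (c : ℂ) {x : V} (hx : S.Alive w x) :
    S.Alive w (c • x) := by
  induction w generalizing x with
  | nil => trivial
  | cons i w ih =>
    refine ⟨(S.K i).smul_mem c hx.1, ?_⟩
    rw [map_smul]
    exact ih hx.2

theorem run_smul (S : Sys I V) (w : List I) (c : ℂ) (x : V) :
    S.run w (c • x) = c • S.run w x := by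
  induction w generalizing x with
  | nil => rfl
  | cons i w ih => simp [Sys.run, ih]

theorem run_ne (S : Sys I V) (hinj : ∀ i, ∀ x ∈ S.K i, S.A i x = 0 → x = 0) (w : List I) {x : V}
    (hx : S.Alive w x) (h0 : x ≠ 0) : S.run w x ≠ 0 := by
  induction w generalizing x with
  | nil => exact h0
  | cons i w ih => exact ih hx.2 fun h => h0 (hinj i x hx.1 h)

/-- The outer clock. -/
noncomputable def up (S : Sys I V) (a b : V) (f : V →ₗ[ℂ] ℂ) :
    Sys (Option (I × Bool)) (V × V × V) where
  K
    | none => LinearMap.range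
        ((((LinearMap.fst ℂ ℂ ℂ).smulRight b).prod
          ((((LinearMap.snd ℂ ℂ ℂ).smulRight b).prod ((LinearMap.snd ℂ ℂ ℂ).smulRight b)))) :
          ℂ × ℂ →ₗ[ℂ] V × V × V)
    | some (i, _) => (S.K i).prod ((S.K i).prod (S.K i))
  A
    | none => (((f.comp (LinearMap.fst ℂ V (V × V))).smulRight a).prod
        ((((f.comp (LinearMap.fst ℂ V (V × V))) +
          f.comp ((LinearMap.fst ℂ V V).comp (LinearMap.snd ℂ V (V × V)))).smulRight a).prod 0))
    | some (i, β) => ((S.A i).comp (LinearMap.fst ℂ V (V × V))).prod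
        (((S.A i).comp ((LinearMap.fst ℂ V V).comp (LinearMap.snd ℂ V (V × V)))).prod
          ((S.A i).comp ((2 : ℂ) • ((LinearMap.snd ℂ V V).comp (LinearMap.snd ℂ V (V × V))) +
            (if β then (1 : ℂ) else 0) • (LinearMap.fst ℂ V (V × V)))))

variable (S : Sys I V) (a b : V) (f : V →ₗ[ℂ] ℂ)

theorem mem_none {z : V × V × V} :
    z ∈ (up S a b f).K none ↔ ∃ l m : ℂ, z = (l • b, m • b, m • b) := by
  constructor
  · rintro ⟨⟨l, m⟩, h⟩
    exact ⟨l, m, by rw [← h]; rfl⟩
  · rintro ⟨l, m, rfl⟩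
    exact ⟨(l, m), rfl⟩

theorem mem_some {z : V × V × V} {i : I} {β : Bool} :
    z ∈ (up S a b f).K (some (i, β)) ↔ z.1 ∈ S.K i ∧ z.2.1 ∈ S.K i ∧ z.2.2 ∈ S.K i := by
  simp [up, Submodule.mem_prod]

theorem A_none (z : V × V × V) :
    (up S a b f).A none z = (f z.1 • a, (f z.1 + f z.2.1) • a, 0) := by
  simp [up]

theorem A_some (z : V × V × V) (i : I) (β : Bool) :
    (up S a b f).A (some (i, β)) z =
      (S.A i z.1, S.A i z.2.1, S.A i ((2 : ℂ) • z.2.2 + (if β then (1 : ℂ) else 0) • z.1)) := rfl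

/-- the state with scalars `l`, `m` and the number `t` -/
def st (l m : ℂ) (t : ℕ) (x : V) : V × V × V := (l • x, m • x, (l * t) • x)

/-- the number built from the bits -/
def bn : ℕ → List (I × Bool) → ℕ
  | t, [] => t
  | t, (_, β) :: v => bn (2 * t + (if β then 1 else 0)) v

theorem A_st (l m : ℂ) (t : ℕ) (x : V) (i : I) (β : Bool) :
    (up S a b f).A (some (i, β)) (st l m t x) = st l m (2 * t + (if β then 1 else 0)) (S.A i x) := by
  rw [A_some]
  unfold st
  simp only [map_smul, map_add, Prod.mk.injEq, true_and]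
  rw [← smul_assoc, ← smul_assoc, ← add_smul]
  congr 1
  push_cast
  simp only [smul_eq_mul]
  split_ifs <;> ring

theorem run_st (v : List (I × Bool)) (l m : ℂ) (t : ℕ) (x : V) :
    (up S a b f).run (v.map some) (st l m t x) = st l m (bn t v) (S.run (v.map Prod.fst) x) := by
  induction v generalizing t x with
  | nil => rfl
  | cons p v ih =>
    obtain ⟨i, β⟩ := p
    simp only [List.map_cons, Sys.run, A_st, bn]
    exact ih _ _

theorem alive_st (v : List (I × Bool)) (l m : ℂ) (t : ℕ) (x : V)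
    (h : S.Alive (v.map Prod.fst) x) : (up S a b f).Alive (v.map some) (st l m t x) := by
  induction v generalizing t x with
  | nil => trivial
  | cons p v ih =>
    obtain ⟨i, β⟩ := p
    refine ⟨(mem_some S a b f).2 ⟨(S.K i).smul_mem _ h.1, (S.K i).smul_mem _ h.1,
      (S.K i).smul_mem _ h.1⟩, ?_⟩
    rw [A_st]
    exact ih _ _ h.2

theorem of_alive_st (v : List (I × Bool)) (l m : ℂ) (t : ℕ) (x : V) (hlm : l ≠ 0 ∨ m ≠ 0)
    (h : (up S a b f).Alive (v.map some) (st l m t x)) : S.Alive (v.map Prod.fst) x := by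
  induction v generalizing t x with
  | nil => trivial
  | cons p v ih =>
    obtain ⟨i, β⟩ := p
    obtain ⟨h1, h2⟩ := h
    rw [A_st] at h2
    refine ⟨?_, ih _ _ h2⟩
    have h3 := (mem_some S a b f).1 h1
    rcases hlm with hl | hm
    · exact ((S.K i).smul_mem_iff hl).1 h3.1
    · exact ((S.K i).smul_mem_iff hm).1 h3.2.1

theorem alive_proj (v : List (I × Bool)) (z : V × V × V)
    (h : (up S a b f).Alive (v.map some) z) :
    S.Alive (v.map Prod.fst) z.1 ∧ S.Alive (v.map Prod.fst) z.2.1 ∧
      S.Alive (v.map Prod.fst) z.2.2 := by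
  induction v generalizing z with
  | nil => exact ⟨trivial, trivial, trivial⟩
  | cons p v ih =>
    obtain ⟨i, β⟩ := p
    obtain ⟨h1, h2⟩ := h
    rw [mem_some] at h1
    have h3 := ih _ h2
    rw [A_some] at h3
    refine ⟨⟨h1.1, h3.1⟩, ⟨h1.2.1, h3.2.1⟩, ⟨h1.2.2, ?_⟩⟩
    have h4 : S.A i z.2.2 = (1 / 2 : ℂ) • (S.A i ((2 : ℂ) • z.2.2 +
        (if β then (1 : ℂ) else 0) • z.1)) + (-(if β then (1 : ℂ) else 0) / 2) • S.A i z.1 := by
      rw [map_add, map_smul, map_smul, smul_add, smul_smul, smul_smul]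
      rw [add_assoc, ← add_smul]
      have e1 : (1 / 2 : ℂ) * 2 = 1 := by norm_num
      have e2 : (1 / 2 : ℂ) * (if β then (1 : ℂ) else 0) + -(if β then (1 : ℂ) else 0) / 2 = 0 := by
        ring
      rw [e1, e2, one_smul, zero_smul, add_zero]
    change S.Alive (v.map Prod.fst) (S.A i z.2.2)
    rw [h4]
    exact alive_add S _ (alive_smul S _ _ h3.2.2) (alive_smul S _ _ h3.1)

theorem bn_lt (t : ℕ) (v : List (I × Bool)) : bn t v + 1 ≤ 2 ^ v.length * (t + 1) := by
  induction v generalizing t with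
  | nil => simp [bn]
  | cons p v ih =>
    obtain ⟨i, β⟩ := p
    have h := ih (2 * t + (if β then 1 else 0))
    have h2 : 2 * t + (if β then 1 else 0) + 1 ≤ 2 * (t + 1) := by split_ifs <;> omega
    calc bn t ((i, β) :: v) + 1 = bn (2 * t + (if β then 1 else 0)) v + 1 := rfl
      _ ≤ 2 ^ v.length * (2 * t + (if β then 1 else 0) + 1) := h
      _ ≤ 2 ^ v.length * (2 * (t + 1)) := Nat.mul_le_mul_left _ h2
      _ = 2 ^ (v.length + 1) * (t + 1) := by ring

theorem bn_lt' (v : List (I × Bool)) : bn 0 v < 2 ^ v.length := by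
  have := bn_lt 0 v
  omega

theorem exists_bits (u : List I) (t c : ℕ) (h1 : 2 ^ u.length * t ≤ c)
    (h2 : c < 2 ^ u.length * (t + 1)) : ∃ v : List (I × Bool), v.map Prod.fst = u ∧ bn t v = c := by
  induction u generalizing t with
  | nil =>
    refine ⟨[], rfl, ?_⟩
    simp only [List.length_nil, pow_zero, one_mul] at h1 h2
    simp only [bn]
    omega
  | cons i u ih =>
    simp only [List.length_cons, pow_succ] at h1 h2
    by_cases hc : 2 ^ u.length * (2 * t + 1) ≤ c
    · obtain ⟨v, hv1, hv2⟩ := ih (2 * t + 1) hc (by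
        calc c < 2 ^ u.length * 2 * (t + 1) := h2
          _ = 2 ^ u.length * (2 * t + 1 + 1) := by ring)
      exact ⟨(i, true) :: v, by simp [hv1], by simpa [bn] using hv2⟩
    · obtain ⟨v, hv1, hv2⟩ := ih (2 * t) (by
        calc 2 ^ u.length * (2 * t) = 2 ^ u.length * 2 * t := by ring
          _ ≤ c := h1) (by omega)
      exact ⟨(i, false) :: v, by simp [hv1], by simpa [bn] using hv2⟩

theorem split_word (w : List (Option (I × Bool))) :
    (∃ v : List (I × Bool), w = v.map some) ∨
      ∃ (v : List (I × Bool)) (w' : List (Option (I × Bool))), w = v.map some ++ none :: w' := by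
  induction w with
  | nil => exact Or.inl ⟨[], rfl⟩
  | cons p w ih =>
    cases p with
    | none => exact Or.inr ⟨[], w, rfl⟩
    | some q =>
      rcases ih with ⟨v, rfl⟩ | ⟨v, w', rfl⟩
      · exact Or.inl ⟨q :: v, rfl⟩
      · exact Or.inr ⟨q :: v, w', rfl⟩

variable {S a b f} {N L : ℕ}

/-- What happens at the restart. -/
theorem none_st (h : IsClock S a b N L) (hf : f b = 1) {l m : ℂ} (hlm : l ≠ 0 ∨ m ≠ 0)
    (v : List (I × Bool)) (w : List (Option (I × Bool)))
    (hw : (up S a b f).Alive (v.map some ++ none :: w) (st l m 0 a)) :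
    l ≠ 0 ∧ m = l * (bn 0 v : ℕ) ∧ v.length = N ∧ S.run (v.map Prod.fst) a = b ∧
      (up S a b f).Alive w (st l (l * ((bn 0 v + 1 : ℕ) : ℂ)) 0 a) ∧
      (up S a b f).run (v.map some ++ none :: w) (st l m 0 a) =
        (up S a b f).run w (st l (l * ((bn 0 v + 1 : ℕ) : ℂ)) 0 a) := by
  rw [alive_append] at hw
  obtain ⟨h1, h2, h3⟩ := hw
  have h4 := of_alive_st S a b f v l m 0 a hlm h1
  rw [run_st] at h2 h3
  rw [run_append, run_st]
  set y := S.run (v.map Prod.fst) a with hy
  have hy0 : y ≠ 0 := run_ne S h.inj _ h4 h.ha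
  obtain ⟨l', m', he⟩ := (mem_none S a b f).1 h2
  unfold st at he
  simp only [Prod.mk.injEq] at he
  obtain ⟨e1, e2, e3⟩ := he
  have e4 : m = l * (bn 0 v : ℕ) := by
    rw [← e3] at e2
    exact smul_left_injective ℂ hy0 e2
  have hl : l ≠ 0 := by
    rintro rfl
    rw [zero_mul] at e4
    rcases hlm with hh | hh
    · exact hh rfl
    · exact hh e4
  have e5 : y = (l⁻¹ * l') • b := by
    rw [mul_smul, ← e1, smul_smul, inv_mul_cancel₀ hl, one_smul]
  obtain ⟨e6, e7⟩ := h.exact' _ _ h4 e5
  rw [List.length_map] at e7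
  have e8 : y = b := by rw [e5, e6, one_smul]
  have e9 : (up S a b f).A none (st l m (bn 0 v) y) = st l (l * ((bn 0 v + 1 : ℕ) : ℂ)) 0 a := by
    rw [A_none, e8]
    unfold st
    simp only [map_smul, hf, smul_eq_mul, mul_one, Nat.cast_zero, mul_zero, zero_smul,
      Prod.mk.injEq, true_and, and_true]
    congr 1
    rw [e4]
    push_cast
    ring
  rw [e9] at h3
  refine ⟨hl, e4, e7, e8, h3, ?_⟩
  simp only [Sys.run, e9]

theorem len_lt (h : IsClock S a b N L) {v : List (I × Bool)}
    (hv : S.Alive (v.map Prod.fst) a) : v.length < L := by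
  by_contra hc
  exact h.ha (h.mort (v.map Prod.fst) (by simpa using hc) a hv)

theorem bound_nat (h : IsClock S a b N L) (hf : f b = 1) (k : ℕ) :
    ∀ (m : ℕ), m + k = 2 ^ N → ∀ (l : ℂ), l ≠ 0 → ∀ w,
      (up S a b f).Alive w (st l (l * m) 0 a) → w.length ≤ (k + 1) * (L + 1) := by
  induction k with
  | zero =>
    intro m hm l hl w hw
    rcases split_word w with ⟨v, rfl⟩ | ⟨v, w', rfl⟩
    · have h1 := len_lt h (of_alive_st S a b f v _ _ _ _ (Or.inl hl) hw)
      rw [List.length_map]
      omega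
    · obtain ⟨-, h2, h3, -⟩ := none_st h hf (Or.inl hl) v w' hw
      have h4 : (m : ℂ) = (bn 0 v : ℕ) := mul_left_cancel₀ hl h2
      have h5 : m = bn 0 v := by exact_mod_cast h4
      have h6 := bn_lt' v
      rw [h3] at h6
      omega
  | succ k ih =>
    intro m hm l hl w hw
    rcases split_word w with ⟨v, rfl⟩ | ⟨v, w', rfl⟩
    · have h1 := len_lt h (of_alive_st S a b f v _ _ _ _ (Or.inl hl) hw)
      rw [List.length_map]
      nlinarith
    · obtain ⟨-, h2, h3, -, h7, -⟩ := none_st h hf (Or.inl hl) v w' hw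
      have h8 := of_alive_st S a b f v _ _ _ _ (Or.inl hl) ((alive_append _ _ _ _).1 hw).1
      have h1 := len_lt h h8
      have h4 : (m : ℂ) = (bn 0 v : ℕ) := mul_left_cancel₀ hl h2
      have h5 : m = bn 0 v := by exact_mod_cast h4
      rw [← h5] at h7
      have h9 := ih (m + 1) (by omega) l hl w' h7
      rw [List.length_append, List.length_map, List.length_cons]
      nlinarith

theorem bound_st (h : IsClock S a b N L) (hf : f b = 1) (l m : ℂ) (hlm : l ≠ 0 ∨ m ≠ 0)
    (w : List (Option (I × Bool))) (hw : (up S a b f).Alive w (st l m 0 a)) :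
    w.length ≤ (2 ^ N + 1) * (L + 1) := by
  rcases split_word w with ⟨v, rfl⟩ | ⟨v, w', rfl⟩
  · have h1 := len_lt h (of_alive_st S a b f v _ _ _ _ hlm hw)
    rw [List.length_map]
    have h2 : 1 * (L + 1) ≤ (2 ^ N + 1) * (L + 1) :=
      Nat.mul_le_mul_right _ (Nat.le_add_left 1 _)
    omega
  · obtain ⟨hl, h2, h3, -⟩ := none_st h hf hlm v w' hw
    have h6 := bn_lt' v
    rw [h3] at h6
    rw [h2] at hw
    have h7 := bound_nat h hf (2 ^ N - bn 0 v) (bn 0 v) (by omega) l hl _ hw
    refine h7.trans (Nat.mul_le_mul_right _ ?_)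
    omega

theorem inj_up (h : IsClock S a b N L) (hf : f b = 1) (i : Option (I × Bool)) (z : V × V × V)
    (hz : z ∈ (up S a b f).K i) (h0 : (up S a b f).A i z = 0) : z = 0 := by
  cases i with
  | none =>
    obtain ⟨l, m, rfl⟩ := (mem_none S a b f).1 hz
    rw [A_none] at h0
    simp only [map_smul, hf, smul_eq_mul, mul_one, Prod.mk_eq_zero, smul_eq_zero, h.ha,
      or_false, and_true] at h0
    obtain ⟨h1, h2⟩ := h0
    have h3 : m = 0 := by rw [h1, zero_add] at h2; exact h2
    rw [h1, h3]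
    simp
  | some p =>
    obtain ⟨i, β⟩ := p
    rw [mem_some] at hz
    rw [A_some] at h0
    simp only [Prod.mk_eq_zero] at h0
    have h1 := h.inj i _ hz.1 h0.1
    have h2 := h.inj i _ hz.2.1 h0.2.1
    have h3 := h.inj i _ ((S.K i).add_mem ((S.K i).smul_mem _ hz.2.2) ((S.K i).smul_mem _ hz.1))
      h0.2.2
    rw [h1, smul_zero, add_zero, smul_eq_zero] at h3
    have h4 : z.2.2 = 0 := by
      rcases h3 with h3 | h3
      · norm_num at h3
      · exact h3
    exact Prod.ext h1 (Prod.ext h2 h4)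

theorem mort_up (h : IsClock S a b N L) (hf : f b = 1) (w : List (Option (I × Bool)))
    (hw : (2 ^ N + 2) * (L + 1) + 1 ≤ w.length) (z : V × V × V) (hz : (up S a b f).Alive w z) :
    z = 0 := by
  by_contra hz0
  have key : ∀ v : List (I × Bool), (up S a b f).Alive (v.map some) z → v.length < L := by
    intro v hv
    by_contra hc
    obtain ⟨h1, h2, h3⟩ := alive_proj S a b f v z hv
    have hl : L ≤ (v.map Prod.fst).length := by simpa using hc
    exact hz0 (Prod.ext (h.mort _ hl _ h1) (Prod.ext (h.mort _ hl _ h2) (h.mort _ hl _ h3)))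
  rcases split_word w with ⟨v, rfl⟩ | ⟨v, w', rfl⟩
  · have h1 := key v hz
    rw [List.length_map] at hw
    have h2 : 1 * (L + 1) ≤ (2 ^ N + 2) * (L + 1) :=
      Nat.mul_le_mul_right _ (Nat.succ_le_of_lt (by positivity))
    omega
  · have h0 := (alive_append _ _ _ _).1 hz
    have h1 := key v h0.1
    have h2 : (up S a b f).run (v.map some) z ≠ 0 := run_ne _ (inj_up h hf) _ h0.1 hz0
    obtain ⟨h3, h4⟩ := h0.2
    obtain ⟨l, m, he⟩ := (mem_none S a b f).1 h3
    rw [he, A_none] at h4
    have h5 : (f (l • b) • a, (f (l • b) + f (m • b)) • a, (0 : V)) = st l (l + m) 0 a := by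
      unfold st
      simp [hf]
    rw [h5] at h4
    have h6 : l ≠ 0 ∨ l + m ≠ 0 := by
      by_contra hc
      push Not at hc
      obtain ⟨c1, c2⟩ := hc
      rw [c1, zero_add] at c2
      apply h2
      rw [he, c1, c2]
      simp
    have h7 := bound_st h hf l (l + m) h6 w' h4
    rw [List.length_append, List.length_map, List.length_cons] at hw
    nlinarith

theorem follow (h : IsClock S a b N L) (hf : f b = 1) (n : ℕ) :
    ∀ (w : List (Option (I × Bool))), w.length ≤ n → ∀ m : ℕ,
      (up S a b f).Alive w (st 1 m 0 a) →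
      ∃ (m' t : ℕ) (u : List I), S.Alive u a ∧ m ≤ m' ∧
        (up S a b f).run w (st 1 m 0 a) = st 1 m' t (S.run u a) ∧
        w.length = (m' - m) * (N + 1) + u.length := by
  induction n with
  | zero =>
    intro w hw m _
    have : w = [] := List.length_eq_zero_iff.1 (by omega)
    subst this
    exact ⟨m, 0, [], trivial, le_rfl, rfl, by simp⟩
  | succ n ih =>
    intro w hn m hw
    rcases split_word w with ⟨v, rfl⟩ | ⟨v, w', rfl⟩
    · refine ⟨m, bn 0 v, v.map Prod.fst, of_alive_st S a b f v _ _ _ _ (Or.inl one_ne_zero) hw,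
        le_rfl, run_st S a b f v _ _ _ _, by simp⟩
    · obtain ⟨-, h2, h3, h4, h5, h6⟩ := none_st h hf (Or.inl one_ne_zero) v w' hw
      rw [one_mul] at h2 h5 h6
      have h7 : m = bn 0 v := by exact_mod_cast h2
      rw [← h7] at h5 h6
      rw [List.length_append, List.length_map, List.length_cons] at hn
      obtain ⟨m', t, u, k1, k2, k3, k4⟩ := ih w' (by omega) (m + 1) h5
      refine ⟨m', t, u, k1, by omega, by rw [h6, k3], ?_⟩
      rw [List.length_append, List.length_map, List.length_cons, k4, h3]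
      have : m' - m = (m' - (m + 1)) + 1 := by omega
      rw [this]
      ring

theorem exists_way (h : IsClock S a b N L) (hf : f b = 1) (m : ℕ) (hm : m ≤ 2 ^ N) :
    ∃ w, (up S a b f).Alive w (st 1 (0 : ℕ) 0 a) ∧
      (up S a b f).run w (st 1 (0 : ℕ) 0 a) = st 1 m 0 a := by
  induction m with
  | zero => exact ⟨[], trivial, rfl⟩
  | succ m ih =>
    obtain ⟨w, h1, h2⟩ := ih (by omega)
    obtain ⟨u, hu1, hu2⟩ := h.ex
    have hN : u.length = N := (h.exact' u 1 hu1 (by rw [hu2, one_smul])).2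
    obtain ⟨v, hv1, hv2⟩ := exists_bits u 0 m (by simp) (by rw [hN]; omega)
    have h3 : (up S a b f).Alive (v.map some) (st 1 m 0 a) :=
      alive_st S a b f v _ _ _ _ (by rw [hv1]; exact hu1)
    have h4 : (up S a b f).run (v.map some) (st 1 m 0 a) = st 1 m m b := by
      rw [run_st, hv1, hu2, hv2]
    refine ⟨w ++ (v.map some ++ [none]), ?_, ?_⟩
    · rw [alive_append, alive_append]
      refine ⟨h1, by rw [h2]; exact h3, ?_⟩
      rw [h2, h4]
      refine ⟨(mem_none S a b f).2 ⟨1, m, ?_⟩, trivial⟩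
      unfold st
      rw [one_mul]
    · rw [run_append, run_append, h2, h4]
      simp only [Sys.run]
      rw [A_none]
      unfold st
      simp [hf, add_comm]

/-- **The step.** -/
theorem clock_up (h : IsClock S a b N L) (hf : f b = 1) :
    IsClock (up S a b f) (st 1 (0 : ℕ) 0 a) (st 1 ((2 ^ N : ℕ) : ℂ) 0 a) (2 ^ N * (N + 1))
      ((2 ^ N + 2) * (L + 1) + 1) where
  inj := inj_up h hf
  ha := by
    intro h0
    unfold st at h0
    simp [h.ha] at h0
  hb := by
    intro h0
    unfold st at h0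
    simp [h.ha] at h0
  mort := mort_up h hf
  fresh := by
    intro w c hw hr
    obtain ⟨m', t, u, k1, -, k3, k4⟩ := follow h hf w.length w le_rfl 0 hw
    rw [k3] at hr
    unfold st at hr
    simp only [one_smul, one_mul, Nat.cast_zero, zero_smul, Prod.smul_mk, smul_zero,
      Prod.mk.injEq] at hr
    have e1 := h.fresh u c k1 hr.1
    subst e1
    have e2 : (m' : ℂ) • a = 0 := hr.2.1
    rw [smul_eq_zero] at e2
    have e3 : m' = 0 := by
      rcases e2 with e2 | e2
      · exact_mod_cast e2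
      · exact absurd e2 h.ha
    rw [e3] at k4
    simp only [Nat.sub_zero, zero_mul, List.length_nil, add_zero] at k4
    exact List.length_eq_zero_iff.1 k4
  exact' := by
    intro w c hw hr
    obtain ⟨m', t, u, k1, -, k3, k4⟩ := follow h hf w.length w le_rfl 0 hw
    rw [k3] at hr
    unfold st at hr
    simp only [one_smul, one_mul, Nat.cast_zero, zero_smul, Prod.smul_mk, smul_zero,
      Prod.mk.injEq] at hr
    have e1 := h.fresh u c k1 hr.1
    subst e1
    have e2 : a = c • a := hr.1
    have e3 : c = 1 := by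
      have : (1 : ℂ) • a = c • a := by rw [one_smul]; exact e2
      exact (smul_left_injective ℂ h.ha this).symm
    subst e3
    have e4 : (m' : ℂ) • a = (1 : ℂ) • ((2 ^ N : ℕ) : ℂ) • a := hr.2.1
    rw [one_smul] at e4
    have e5 : m' = 2 ^ N := by
      have := smul_left_injective ℂ h.ha e4
      exact_mod_cast this
    refine ⟨rfl, ?_⟩
    rw [k4, e5]
    simp
  ex := exists_way h hf (2 ^ N) le_rfl

end

/-- The first clock: one letter, `a = (1, 0)` goes to `b = (0, 1)`. -/
noncomputable def base : Sys Unit (ℂ × ℂ) where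
  K _ := LinearMap.ker (LinearMap.snd ℂ ℂ ℂ)
  A _ := (0 : ℂ × ℂ →ₗ[ℂ] ℂ).prod (LinearMap.fst ℂ ℂ ℂ)

theorem clock_base : IsClock base (1, 0) (0, 1) 1 2 := by
  have hK : ∀ (i : Unit) (x : ℂ × ℂ), x ∈ base.K i ↔ x.2 = 0 := fun i x => by
    simp [base, LinearMap.mem_ker]
  have hA : ∀ (i : Unit) (x : ℂ × ℂ), base.A i x = (0, x.1) := fun i x => by simp [base]
  have hm : ∀ w : List Unit, 2 ≤ w.length → ∀ x, base.Alive w x → x = 0 := by
    intro w hw x hx
    match w, hw with
    | i :: j :: w, _ =>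
      obtain ⟨h1, h2, -⟩ := hx
      rw [hK] at h1 h2
      rw [hA] at h2
      exact Prod.ext h2 h1
  have h10 : ((1, 0) : ℂ × ℂ) ≠ 0 := by simp
  have hcase : ∀ w : List Unit, base.Alive w (1, 0) → w = [] ∨ w = [()] := by
    intro w hw
    match w with
    | [] => exact Or.inl rfl
    | [()] => exact Or.inr rfl
    | i :: j :: w => exact absurd (hm _ (by simp) _ hw) h10
  refine ⟨?_, h10, by simp, hm, ?_, ?_, ⟨[()], ⟨by rw [hK], trivial⟩, by simp [Sys.run, hA]⟩⟩
  · intro i x hx h0
    rw [hK] at hx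
    rw [hA] at h0
    simp only [Prod.mk_eq_zero, true_and] at h0
    exact Prod.ext h0 hx
  · intro w c hw hr
    rcases hcase w hw with rfl | rfl
    · rfl
    · simp [Sys.run, hA] at hr
  · intro w c hw hr
    rcases hcase w hw with rfl | rfl
    · simp [Sys.run] at hr
    · simp only [Sys.run, hA, Prod.smul_mk, smul_eq_mul, mul_one, Prod.mk.injEq] at hr
      exact ⟨hr.2.symm, rfl⟩

/-- the tower of powers of two -/
def tower : ℕ → ℕ
  | 0 => 1
  | j + 1 => 2 ^ tower j

theorem exists_f {V : Type} [AddCommGroup V] [Module ℂ V] {b : V} (hb : b ≠ 0) :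
    ∃ f : V →ₗ[ℂ] ℂ, f b = 1 := by
  have h : ¬ ∀ φ : Module.Dual ℂ V, φ b = 0 := fun h =>
    hb ((Module.forall_dual_apply_eq_zero_iff ℂ b).1 h)
  push Not at h
  obtain ⟨φ, hφ⟩ := h
  refine ⟨(φ b)⁻¹ • φ, ?_⟩
  simp [hφ]

/-- **Clocks of tower length in dimension `2 * 3 ^ j`.** -/
theorem exists_clock (j : ℕ) : ∃ (I V : Type) (_ : Fintype I) (_ : AddCommGroup V)
    (_ : Module ℂ V) (_ : FiniteDimensional ℂ V) (S : Sys I V) (a b : V) (N L : ℕ),
    IsClock S a b N L ∧ tower j ≤ N ∧ Module.finrank ℂ V = 2 * 3 ^ j ∧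
      Fintype.card I ≤ 2 * 3 ^ j := by
  induction j with
  | zero =>
    refine ⟨Unit, ℂ × ℂ, inferInstance, inferInstance, inferInstance, inferInstance, base, (1, 0),
      (0, 1), 1, 2, clock_base, le_rfl, by simp, by simp⟩
  | succ j ih =>
    obtain ⟨I, V, i1, i2, i3, i4, S, a, b, N, L, hc, hN, hd, hI⟩ := ih
    obtain ⟨f, hf⟩ := exists_f hc.hb
    refine ⟨Option (I × Bool), V × V × V, inferInstance, inferInstance, inferInstance,
      inferInstance, up S a b f, _, _, _, _, clock_up hc hf, ?_, ?_, ?_⟩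
    · calc tower (j + 1) = 2 ^ tower j := rfl
        _ ≤ 2 ^ N := Nat.pow_le_pow_right (by norm_num) hN
        _ ≤ 2 ^ N * (N + 1) := Nat.le_mul_of_pos_right _ (by omega)
    · rw [Module.finrank_prod, Module.finrank_prod, hd]
      ring
    · rw [Fintype.card_option, Fintype.card_prod, Fintype.card_bool]
      have : 1 ≤ 3 ^ j := Nat.one_le_pow _ _ (by norm_num)
      calc Fintype.card I * 2 + 1 ≤ (2 * 3 ^ j) * 2 + 1 := by omega
        _ ≤ 2 * 3 ^ (j + 1) := by rw [pow_succ]; omega

end Pool.Agent.P8H43.NT
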