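import Pool.Agent.P8H43.NT.Ten

/-!
# Normal tensors of tower index
-/

set_option autoImplicit false

namespace Pool.Agent.P8H43.NT

open Finset Pool.Agent.Results.MP_a2a8ea_mp.ExpLower

section

variable {D : ℕ} {I V : Type} [AddCommGroup V] [Module ℂ V]

open Classical in
/-- the system transported to `Fin D → ℂ` with letters `Fin D` -/
noncomputable def emb (S : Sys I V) (e : V →ₗ[ℂ] (Fin D → ℂ)) (π : (Fin D → ℂ) →ₗ[ℂ] V)
    (ι : I → Fin D) : Sys (Fin D) (Fin D → ℂ) where
  K u := match Function.partialInv ι u with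
    | some i => (S.K i).map e
    | none => ⊥
  A u := match Function.partialInv ι u with
    | some i => e.comp ((S.A i).comp π)
    | none => 0

variable {S : Sys I V} {e : V →ₗ[ℂ] (Fin D → ℂ)} {π : (Fin D → ℂ) →ₗ[ℂ] V} {ι : I → Fin D}

theorem emb_K_some {u : Fin D} {i : I} (h : Function.partialInv ι u = some i) :
    (emb S e π ι).K u = (S.K i).map e := by
  simp only [emb, h]

theorem emb_K_none {u : Fin D} (h : Function.partialInv ι u = none) :
    (emb S e π ι).K u = ⊥ := by
  simp only [emb, h]

theorem emb_A_some {u : Fin D} {i : I} (h : Function.partialInv ι u = some i) (x : Fin D → ℂ) :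
    (emb S e π ι).A u x = e (S.A i (π x)) := by
  simp only [emb, h]
  rfl

theorem alive_emb (he : ∀ x, π (e x) = x) (hι : Function.Injective ι) (w : List I) (x : V)
    (h : S.Alive w x) : (emb S e π ι).Alive (w.map ι) (e x) := by
  induction w generalizing x with
  | nil => trivial
  | cons i w ih =>
    have h1 : Function.partialInv ι (ι i) = some i := Function.partialInv_left hι i
    refine ⟨?_, ?_⟩
    · rw [emb_K_some h1]
      exact Submodule.mem_map_of_mem h.1
    · rw [emb_A_some h1, he]
      exact ih _ h.2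

theorem of_alive_emb (he : ∀ x, π (e x) = x) (hinj : ∀ i, ∀ x ∈ S.K i, S.A i x = 0 → x = 0)
    (w : List (Fin D)) (x : V) (hx : x ≠ 0) (h : (emb S e π ι).Alive w (e x)) :
    ∃ w' : List I, w'.length = w.length ∧ S.Alive w' x := by
  have hei : Function.Injective e := Function.LeftInverse.injective he
  induction w generalizing x with
  | nil => exact ⟨[], rfl, trivial⟩
  | cons u w ih =>
    obtain ⟨h1, h2⟩ := h
    cases hu : Function.partialInv ι u with
    | none =>
      rw [emb_K_none hu, Submodule.mem_bot] at h1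
      exact absurd (hei (by rw [h1, map_zero])) hx
    | some i =>
      rw [emb_K_some hu] at h1
      obtain ⟨x', hx', hxe⟩ := h1
      have h3 : x' = x := hei hxe
      subst h3
      rw [emb_A_some hu, he] at h2
      obtain ⟨w', h4, h5⟩ := ih _ (fun h0 => hx (hinj i _ hx' h0)) h2
      exact ⟨i :: w', by simp [h4], hx', h5⟩

theorem mort_emb (he : ∀ x, π (e x) = x) {a b : V} {N L : ℕ} (hc : IsClock S a b N L)
    (w : List (Fin D)) (hw : L + 1 ≤ w.length) (y : Fin D → ℂ)
    (h : (emb S e π ι).Alive w y) : y = 0 := by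
  match w, hw with
  | u :: w, hw =>
    have h0 := h
    obtain ⟨h1, h2⟩ := h
    cases hu : Function.partialInv ι u with
    | none =>
      rw [emb_K_none hu, Submodule.mem_bot] at h1
      exact h1
    | some i =>
      rw [emb_K_some hu] at h1
      obtain ⟨x, hx, rfl⟩ := h1
      by_contra hne
      have hx0 : x ≠ 0 := fun h => hne (by rw [h, map_zero])
      obtain ⟨w', h3, h4⟩ := of_alive_emb he hc.inj (u :: w) x hx0 h0
      exact hx0 (hc.mort w' (by rw [h3]; omega) x h4)

end

theorem exists_ofFn {α : Type} (l : List α) (n : ℕ) (h : l.length = n) :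
    ∃ g : Fin n → α, List.ofFn g = l := by
  subst h
  exact ⟨l.get, List.ofFn_get l⟩

/-- **For every `D ≥ 2 * 3 ^ j` there is a normal tensor of bond dimension `D` whose injectivity
index is larger than the tower of height `j`.** -/
theorem exists_tensor (j D : ℕ) (hD : 2 * 3 ^ j ≤ D) :
    ∃ (d : ℕ) (A : Tensor d D), 1 ≤ d ∧ IsNormal A ∧ tower j < injIndex A := by
  obtain ⟨I, V, i1, i2, i3, i4, S, a, b, N, L, hc, hN, hd, hI⟩ := exists_clock j
  have h3 : 1 ≤ 3 ^ j := Nat.one_le_pow _ _ (by norm_num)
  have hD2 : 2 ≤ D := by omega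
  obtain ⟨e, he⟩ := finrank_le_iff_exists_linearMap.1
    (show Module.finrank ℂ V ≤ Module.finrank ℂ (Fin D → ℂ) by
      rw [hd, Module.finrank_fin_fun]
      exact hD)
  obtain ⟨π, hπ⟩ := LinearMap.exists_leftInverse_of_injective e (LinearMap.ker_eq_bot.2 he)
  have hπe : ∀ x, π (e x) = x := fun x => LinearMap.congr_fun hπ x
  obtain ⟨ι⟩ := Function.Embedding.nonempty_of_card_le
    (show Fintype.card I ≤ Fintype.card (Fin D) by
      rw [Fintype.card_fin]
      exact hI.trans hD)
  let S' := emb S e π ι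
  have hPe : ∀ u, ∃ P : (Fin D → ℂ) →ₗ[ℂ] (Fin D → ℂ), ∀ x, P x = 0 ↔ x ∈ S'.K u := by
    intro u
    obtain ⟨C, hC⟩ := (S'.K u).exists_isCompl
    refine ⟨C.projection (S'.K u) hC.symm, fun x => ?_⟩
    rw [← LinearMap.mem_ker, Submodule.ker_projection]
  choose P hP using hPe
  have hmort : ∀ (n : ℕ), L + 1 ≤ n → ∀ (w : Fin n → Fin D) (x : Fin D → ℂ),
      S'.Alive (List.ofFn w) x → x = 0 := by
    intro n hn w x hx
    exact mort_emb hπe hc (List.ofFn w) (by rw [List.length_ofFn]; exact hn) x hx
  have hK : ∀ u, ∃ x, x ∉ S'.K u := by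
    intro u
    by_contra hcon
    push Not at hcon
    have h1 : ∀ (n : ℕ) (x : Fin D → ℂ), S'.Alive (List.replicate n u) x := by
      intro n
      induction n with
      | zero => exact fun _ => trivial
      | succ n ih => exact fun x => ⟨hcon x, ih _⟩
    have h2 := mort_emb hπe hc (List.replicate (L + 1) u) (by simp)
      (Pi.single (⟨0, by omega⟩ : Fin D) (1 : ℂ)) (h1 _ _)
    simp at h2
  have hnorm : InjectiveSquare (ten S' P) (L + 1) :=
    inj_of S' P hP hK (by omega) (hmort (L + 1) le_rfl)
  refine ⟨_, ten S' P, ?_, ⟨L + 1, by omega, hnorm⟩, ?_⟩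
  · have : Nonempty (Ph D) := ⟨(none, ⟨0, by omega⟩, ⟨0, by omega⟩)⟩
    exact Fintype.card_pos
  · refine lt_of_le_of_lt hN ?_
    refine Nat.lt_of_succ_le (le_csInf ⟨L + 1, by omega, hnorm⟩ ?_)
    rintro n ⟨hn1, hn2⟩
    by_contra hlt
    obtain ⟨w, hw1, hw2⟩ := hc.ex
    have hwN : w.length = N := (hc.exact' w 1 hw1 (by rw [hw2, one_smul])).2
    have h4 : S.Alive (w.take n) a := by
      have h5 := hw1
      rw [← List.take_append_drop n w] at h5
      exact ((alive_append _ _ _ _).1 h5).1
    have h6 := alive_emb (e := e) hπe ι.injective (w.take n) a h4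
    have h7 : ((w.take n).map ι).length = n := by
      rw [List.length_map, List.length_take, hwN]
      omega
    obtain ⟨g, hg⟩ := exists_ofFn _ n h7
    refine not_inj S' P hD2 hP hn1 g (e a) ?_ ?_ hn2
    · intro h0
      exact hc.ha (he (by rw [h0, map_zero]))
    · rw [hg]
      exact h6

end Pool.Agent.P8H43.NT
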