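import Pool.Agent.P8H43.NT.Clock
import Pool.Agent.Results.MP_a2a8ea_mp.ExpLower

/-!
# Row tensors of systems of partial linear maps

The upper label of a cell chooses a letter, the lower label is free.  The `n × n` square is
injective if and only if no word of length `n` can be applied to a nonzero vector.
-/

set_option autoImplicit false

namespace Pool.Agent.P8H43.NT

open Finset Pool.Agent.Results.MP_a2a8ea_mp.ExpLower

/-! ### Sums over paths -/

theorem sum_cons {α M : Type} [Fintype α] [AddCommMonoid M] (n : ℕ) (F : (Fin (n + 1) → α) → M) :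
    ∑ g, F g = ∑ a, ∑ g' : Fin n → α, F (Fin.cons a g') := by
  rw [← Fintype.sum_prod_type' (fun a (g' : Fin n → α) => F (Fin.cons a g'))]
  exact (Equiv.sum_comp (Fin.consEquiv (fun _ => α)) F).symm

theorem path_sum {α : Type} [Fintype α] [DecidableEq α] (n : ℕ) (F : α → α → ℂ)
    (T : Fin n → Matrix α α ℂ) :
    ∑ g : Fin (n + 1) → α, F (g 0) (g (Fin.last n)) * ∏ i, T i (g i.castSucc) (g i.succ)
      = ∑ l, ∑ r, F l r * (List.ofFn T).prod l r := by
  induction n generalizing F with
  | zero =>
    rw [sum_cons]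
    refine Finset.sum_congr rfl fun a _ => ?_
    rw [List.ofFn_zero, List.prod_nil]
    simp [Matrix.one_apply]
  | succ n ih =>
    rw [sum_cons]
    refine Finset.sum_congr rfl fun a _ => ?_
    have h1 : ∀ g' : Fin (n + 1) → α,
        F ((Fin.cons a g' : Fin (n + 2) → α) 0) ((Fin.cons a g' : Fin (n + 2) → α) (Fin.last _)) *
          ∏ i : Fin (n + 1), T i ((Fin.cons a g' : Fin (n + 2) → α) i.castSucc)
            ((Fin.cons a g' : Fin (n + 2) → α) i.succ) =
        (fun l r => F a r * T 0 a l) (g' 0) (g' (Fin.last n)) *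
          ∏ i : Fin n, T i.succ (g' i.castSucc) (g' i.succ) := by
      intro g'
      rw [Fin.prod_univ_succ]
      have e1 : (Fin.cons a g' : Fin (n + 2) → α) 0 = a := rfl
      have e2 : (Fin.cons a g' : Fin (n + 2) → α) (Fin.last (n + 1)) = g' (Fin.last n) := rfl
      have e3 : ∀ i : Fin (n + 1), (Fin.cons a g' : Fin (n + 2) → α) i.succ = g' i :=
        fun i => rfl
      have e4 : ∀ i : Fin n, (Fin.cons a g' : Fin (n + 2) → α) (i.succ).castSucc = g' i.castSucc :=
        fun i => rfl
      have e5 : (Fin.cons a g' : Fin (n + 2) → α) (Fin.castSucc 0) = a := rfl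
      rw [e1, e2, e5, e3]
      simp only [e3, e4]
      ring
    rw [Finset.sum_congr rfl (fun g' _ => h1 g')]
    rw [ih (fun l r => F a r * T 0 a l) (fun i => T i.succ)]
    rw [List.ofFn_succ, List.prod_cons, Finset.sum_comm]
    refine Finset.sum_congr rfl fun r _ => ?_
    rw [Matrix.mul_apply, Finset.mul_sum]
    refine Finset.sum_congr rfl fun l _ => ?_
    ring

theorem prod_big {k D : ℕ} (n : ℕ) (T : Fin n → Fin k → Matrix (Fin D) (Fin D) ℂ)
    (L R : Fin k → Fin D) :
    (List.ofFn (fun i => (Matrix.of fun L R : Fin k → Fin D => ∏ j, T i j (L j) (R j)))).prod L R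
      = ∏ j, (List.ofFn (fun i => T i j)).prod (L j) (R j) := by
  induction n generalizing L R with
  | zero =>
    simp only [List.ofFn_zero, List.prod_nil, Matrix.one_apply]
    by_cases h : L = R
    · subst h
      simp
    · rw [if_neg h]
      obtain ⟨j, hj⟩ : ∃ j, L j ≠ R j := by
        by_contra hc
        push Not at hc
        exact h (funext hc)
      exact (Finset.prod_eq_zero (Finset.mem_univ j) (by rw [if_neg hj])).symm
  | succ n ih =>
    simp only [List.ofFn_succ, List.prod_cons]
    rw [Matrix.mul_apply]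
    simp only [Matrix.mul_apply]
    rw [Finset.prod_univ_sum, Fintype.piFinset_univ]
    refine Finset.sum_congr rfl fun M _ => ?_
    rw [ih, Finset.prod_mul_distrib]
    rfl

theorem path_sum_rows {n D : ℕ} (F : (Fin n → Fin D) → (Fin n → Fin D) → ℂ)
    (T : Fin n → Fin n → Matrix (Fin D) (Fin D) ℂ) :
    ∑ h : Fin (n + 1) → Fin n → Fin D, F (h 0) (h (Fin.last n)) *
      ∏ i, ∏ j, T i j (h i.castSucc j) (h i.succ j) =
    ∑ L, ∑ R, F L R * ∏ j, (List.ofFn (fun i => T i j)).prod (L j) (R j) := by
  have h1 := path_sum n F (fun i => (Matrix.of fun L R : Fin n → Fin D => ∏ j, T i j (L j) (R j)))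
  simp only [Matrix.of_apply] at h1
  rw [h1]
  refine Finset.sum_congr rfl fun L _ => Finset.sum_congr rfl fun R _ => ?_
  rw [prod_big]

/-! ### The tensor -/

variable {D : ℕ}

/-- The matrices which the letter `u` offers. -/
noncomputable def Mx (S : Sys (Fin D) (Fin D → ℂ)) (P : Fin D → (Fin D → ℂ) →ₗ[ℂ] (Fin D → ℂ))
    (u : Fin D) : Option (Fin D × Fin D) → Matrix (Fin D) (Fin D) ℂ
  | none => fun l r => S.A u (Pi.single l 1) r
  | some (i, k) => fun l r => if r = k then P u (Pi.single l 1) i else 0

/-- The values of the physical index. -/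
abbrev Ph (D : ℕ) := Option (Fin D × Fin D) × Fin D × Fin D

/-- The row tensor. -/
noncomputable def ten (S : Sys (Fin D) (Fin D → ℂ)) (P : Fin D → (Fin D → ℂ) →ₗ[ℂ] (Fin D → ℂ)) :
    Tensor (Fintype.card (Ph D)) D := fun p l r u b =>
  if u = ((Fintype.equivFin (Ph D)).symm p).2.1 ∧ b = ((Fintype.equivFin (Ph D)).symm p).2.2 then
    Mx S P u ((Fintype.equivFin (Ph D)).symm p).1 l r else 0

theorem lin_exp {M : Type} [AddCommGroup M] [Module ℂ M] (f : (Fin D → ℂ) →ₗ[ℂ] M)
    (x : Fin D → ℂ) : f x = ∑ l, x l • f (Pi.single l 1) := by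
  have h : x = ∑ l, x l • (Pi.single l (1 : ℂ) : Fin D → ℂ) := by
    funext j
    rw [Finset.sum_apply, Finset.sum_eq_single j]
    · simp
    · intro b _ hb
      simp [hb.symm]
    · intro hj
      exact absurd (Finset.mem_univ _) hj
  conv_lhs => rw [h]
  rw [map_sum]
  simp only [map_smul]

theorem lin_exp' (f : (Fin D → ℂ) →ₗ[ℂ] (Fin D → ℂ)) (x : Fin D → ℂ) (i : Fin D) :
    f x i = ∑ l, x l * f (Pi.single l 1) i := by
  rw [lin_exp f x, Finset.sum_apply]
  rfl

variable (S : Sys (Fin D) (Fin D → ℂ)) (P : Fin D → (Fin D → ℂ) →ₗ[ℂ] (Fin D → ℂ))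

theorem sum_some (u : Fin D) (i k : Fin D) (x : Fin D → ℂ) (r : Fin D) :
    ∑ l, x l * Mx S P u (some (i, k)) l r = if r = k then P u x i else 0 := by
  simp only [Mx]
  split_ifs with h
  · rw [lin_exp' (P u) x i]
  · simp

theorem sum_none (u : Fin D) (x : Fin D → ℂ) (r : Fin D) :
    ∑ l, x l * Mx S P u none l r = S.A u x r := by
  simp only [Mx]
  rw [lin_exp' (S.A u) x r]

theorem ofFn_cons_mx {n : ℕ} (w : Fin (n + 1) → Fin D) (o0 : Option (Fin D × Fin D))
    (o : Fin n → Option (Fin D × Fin D)) :
    List.ofFn (fun i => Mx S P (w i) ((Fin.cons o0 o : Fin (n + 1) → Option (Fin D × Fin D)) i)) =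
      Mx S P (w 0) o0 :: List.ofFn (fun i : Fin n => Mx S P (w i.succ) (o i)) := by
  rw [List.ofFn_succ]
  rfl

theorem surj (hP : ∀ u x, P u x = 0 ↔ x ∈ S.K u) (hK : ∀ u, ∃ x, x ∉ S.K u) (n : ℕ)
    (w : Fin n → Fin D) (y : Fin D → ℂ)
    (h : ∀ o : Fin n → Option (Fin D × Fin D), ∀ k,
      ∑ r, (List.ofFn (fun i => Mx S P (w i) (o i))).prod k r * y r = 0) : y = 0 := by
  induction n with
  | zero =>
    funext k
    have h1 := h (fun i => none) k
    simpa [Matrix.one_apply] using h1
  | succ n ih =>
    obtain ⟨x, hx⟩ := hK (w 0)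
    have h1 : P (w 0) x ≠ 0 := fun h0 => hx ((hP _ _).1 h0)
    obtain ⟨i, hi⟩ : ∃ i, P (w 0) x i ≠ 0 := by
      by_contra hc
      push Not at hc
      exact h1 (funext hc)
    obtain ⟨l, hl⟩ : ∃ l, P (w 0) (Pi.single l 1) i ≠ 0 := by
      by_contra hc
      push Not at hc
      apply hi
      rw [lin_exp' (P (w 0)) x i]
      exact Finset.sum_eq_zero fun l _ => by rw [hc, mul_zero]
    refine ih (fun i => w i.succ) fun o k => ?_
    have h2 := h (Fin.cons (some (i, k)) o) l
    rw [ofFn_cons_mx, List.prod_cons] at h2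
    have h3 : ∀ r, (Mx S P (w 0) (some (i, k)) *
        (List.ofFn (fun i : Fin n => Mx S P (w i.succ) (o i))).prod) l r =
        P (w 0) (Pi.single l 1) i *
          (List.ofFn (fun i : Fin n => Mx S P (w i.succ) (o i))).prod k r := by
      intro r
      rw [Matrix.mul_apply, Finset.sum_eq_single k]
      · simp [Mx]
      · intro b _ hb
        simp [Mx, hb]
      · intro hk
        exact absurd (Finset.mem_univ _) hk
    have h4 : P (w 0) (Pi.single l 1) i *
        ∑ r, (List.ofFn (fun i : Fin n => Mx S P (w i.succ) (o i))).prod k r * y r = 0 := by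
      rw [← h2, Finset.mul_sum]
      refine Finset.sum_congr rfl fun r _ => ?_
      rw [h3]
      ring
    rcases mul_eq_zero.1 h4 with h5 | h5
    · exact absurd h5 hl
    · exact h5

theorem row (hP : ∀ u x, P u x = 0 ↔ x ∈ S.K u) (hK : ∀ u, ∃ x, x ∉ S.K u) (n : ℕ)
    (w : Fin n → Fin D) (ψ : Fin D → Fin D → ℂ)
    (h : ∀ o : Fin n → Option (Fin D × Fin D),
      ∑ l, ∑ r, ψ l r * (List.ofFn (fun i => Mx S P (w i) (o i))).prod l r = 0) (r : Fin D) :
    S.Alive (List.ofFn w) (fun l => ψ l r) := by
  induction n generalizing ψ r with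
  | zero =>
    rw [List.ofFn_zero]
    trivial
  | succ n ih =>
    rw [List.ofFn_succ]
    constructor
    · rw [← hP]
      funext i
      have h1 : (fun r => P (w 0) (fun l => ψ l r) i) = 0 := by
        refine surj S P hP hK n (fun i => w i.succ) _ fun o k => ?_
        have h2 := h (Fin.cons (some (i, k)) o)
        rw [ofFn_cons_mx, List.prod_cons] at h2
        rw [← h2, Finset.sum_comm]
        refine Finset.sum_congr rfl fun r _ => ?_
        simp only [Matrix.mul_apply, Finset.mul_sum]
        rw [Finset.sum_comm]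
        rw [Finset.sum_eq_single k]
        · have h3 := sum_some S P (w 0) i k (fun l => ψ l r) k
          rw [if_pos rfl] at h3
          rw [← h3, Finset.mul_sum]
          refine Finset.sum_congr rfl fun l _ => ?_
          ring
        · intro b _ hb
          refine Finset.sum_eq_zero fun l _ => ?_
          simp [Mx, hb]
        · intro hk
          exact absurd (Finset.mem_univ _) hk
      exact congrFun h1 r
    · have h1 := ih (fun i => w i.succ) (fun k r => S.A (w 0) (fun l => ψ l r) k) ?_ r
      · exact h1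
      · intro o
        have h2 := h (Fin.cons none o)
        rw [ofFn_cons_mx, List.prod_cons] at h2
        rw [← h2]
        rw [Finset.sum_comm]
        conv_rhs => rw [Finset.sum_comm]
        refine Finset.sum_congr rfl fun r _ => ?_
        simp only [Matrix.mul_apply, Finset.mul_sum]
        rw [Finset.sum_comm]
        refine Finset.sum_congr rfl fun k _ => ?_
        rw [← sum_none S P (w 0) (fun l => ψ l r) k, Finset.sum_mul]
        refine Finset.sum_congr rfl fun l _ => ?_
        ring

theorem alive_row (hP : ∀ u x, P u x = 0 ↔ x ∈ S.K u) (n : ℕ) (w : Fin n → Fin D)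
    (x : Fin D → ℂ) (hx : S.Alive (List.ofFn w) x) (o : Fin n → Option (Fin D × Fin D)) :
    ∃ c : ℂ, ∀ r, ∑ l, x l * (List.ofFn (fun i => Mx S P (w i) (o i))).prod l r =
      c * S.run (List.ofFn w) x r := by
  induction n generalizing x with
  | zero =>
    refine ⟨1, fun r => ?_⟩
    simp [Matrix.one_apply, Sys.run]
  | succ n ih =>
    rw [List.ofFn_succ] at hx
    obtain ⟨hx1, hx2⟩ := hx
    obtain ⟨c, hc⟩ := ih (fun i => w i.succ) _ hx2 (fun i => o i.succ)
    rw [List.ofFn_succ, List.ofFn_succ, List.prod_cons]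
    have h1 : ∀ r, ∑ l, x l * (Mx S P (w 0) (o 0) *
        (List.ofFn (fun i : Fin n => Mx S P (w i.succ) (o i.succ))).prod) l r =
        ∑ k, (∑ l, x l * Mx S P (w 0) (o 0) l k) *
          (List.ofFn (fun i : Fin n => Mx S P (w i.succ) (o i.succ))).prod k r := by
      intro r
      simp only [Matrix.mul_apply, Finset.mul_sum, Finset.sum_mul]
      rw [Finset.sum_comm]
      refine Finset.sum_congr rfl fun k _ => Finset.sum_congr rfl fun l _ => ?_
      ring
    cases ho : o 0 with
    | none =>
      refine ⟨c, fun r => ?_⟩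
      rw [ho] at h1
      rw [h1]
      simp only [sum_none]
      exact hc r
    | some p =>
      obtain ⟨i, k⟩ := p
      refine ⟨0, fun r => ?_⟩
      rw [ho] at h1
      rw [h1, zero_mul]
      refine Finset.sum_eq_zero fun k' _ => ?_
      rw [sum_some, (hP _ _).2 hx1]
      simp

/-! ### Words which can be applied give boundary vectors in the kernel -/

theorem exists_orth (hD : 2 ≤ D) (z : Fin D → ℂ) : ∃ g : Fin D → ℂ, g ≠ 0 ∧ ∑ r, z r * g r = 0 := by
  let p : Fin D := ⟨0, by omega⟩
  let q : Fin D := ⟨1, by omega⟩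
  have hpq : p ≠ q := by
    intro h
    have := congrArg Fin.val h
    simp [p, q] at this
  by_cases hz : z p = 0
  · refine ⟨Pi.single p 1, by simp, ?_⟩
    rw [Finset.sum_eq_single p]
    · simp [hz]
    · intro b _ hb
      simp [hb]
    · intro hk
      exact absurd (Finset.mem_univ _) hk
  · refine ⟨Pi.single p (z q) - Pi.single q (z p), ?_, ?_⟩
    · intro h
      have h1 := congrFun h q
      simp [hpq.symm] at h1
      exact hz h1
    · simp only [Pi.sub_apply, mul_sub, Finset.sum_sub_distrib, Pi.single_apply, mul_ite, mul_zero,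
        Finset.sum_ite_eq', Finset.mem_univ, if_true]
      ring

theorem not_inj (hD : 2 ≤ D) (hP : ∀ u x, P u x = 0 ↔ x ∈ S.K u) {n : ℕ} (hn : 1 ≤ n)
    (w : Fin n → Fin D) (x : Fin D → ℂ) (hx0 : x ≠ 0) (hx : S.Alive (List.ofFn w) x) :
    ¬ InjectiveSquare (ten S P) n := by
  intro hinj
  obtain ⟨g, hg0, hg⟩ := exists_orth hD (S.run (List.ofFn w) x)
  let j0 : Fin n := ⟨n - 1, by omega⟩
  have hj0 : j0.succ = Fin.last n := by
    apply Fin.ext
    simp [j0]
    omega
  let φ : Bdry D n → ℂ := fun b => if b.2.2.1 = w then x (b.1 j0) * g (b.2.1 j0) else 0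
  have hφ : Gam (ten S P) n φ = 0 := by
    funext s
    change ∑ e : Edges D n, φ (bd e) * weight (ten S P) s e = 0
    rw [Fintype.sum_prod_type, Finset.sum_comm]
    refine Finset.sum_eq_zero fun v _ => ?_
    by_cases hv : (fun i => v i (Fin.last n)) = w
    · let T : Fin n → Fin n → Matrix (Fin D) (Fin D) ℂ := fun i j l r =>
        ten S P (s i j) l r (v i j.succ) (v i j.castSucc)
      have h1 := path_sum_rows (fun L R => x (L j0) * g (R j0)) T
      have h2 : ∀ h : Fin (n + 1) → Fin n → Fin D, φ (bd (h, v)) * weight (ten S P) s (h, v) =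
          x (h 0 j0) * g (h (Fin.last n) j0) * ∏ i, ∏ j, T i j (h i.castSucc j) (h i.succ j) := by
        intro h
        have h3 : φ (bd (h, v)) = x (h 0 j0) * g (h (Fin.last n) j0) := by
          simp only [φ, bd]
          rw [if_pos hv]
        rw [h3]
        rfl
      rw [Finset.sum_congr rfl (fun h _ => h2 h)]
      rw [h1]
      let G : Fin n → Fin D → Fin D → ℂ := fun j l r =>
        (if j = j0 then x l * g r else 1) * (List.ofFn (fun i => T i j)).prod l r
      have h4 : ∀ L R : Fin n → Fin D, x (L j0) * g (R j0) *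
          ∏ j, (List.ofFn (fun i => T i j)).prod (L j) (R j) = ∏ j, G j (L j) (R j) := by
        intro L R
        simp only [G]
        rw [Finset.prod_mul_distrib]
        congr 1
        rw [Finset.prod_ite_eq' Finset.univ j0 (fun j => x (L j) * g (R j))]
        simp
      have h5 : ∑ L : Fin n → Fin D, ∑ R : Fin n → Fin D, ∏ j, G j (L j) (R j) =
          ∏ j, ∑ l, ∑ r, G j l r := by
        rw [Finset.prod_univ_sum, Fintype.piFinset_univ]
        refine Finset.sum_congr rfl fun L _ => ?_
        rw [Finset.prod_univ_sum, Fintype.piFinset_univ]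
      rw [Finset.sum_congr rfl (fun L _ => Finset.sum_congr rfl (fun R _ => h4 L R)), h5]
      refine Finset.prod_eq_zero (Finset.mem_univ j0) ?_
      simp only [G, if_true]
      by_cases hT : ∃ i, T i j0 = 0
      · obtain ⟨i, hi⟩ := hT
        have h6 : (List.ofFn (fun i => T i j0)).prod = 0 :=
          List.prod_eq_zero (List.mem_ofFn.2 ⟨i, hi⟩)
        rw [h6]
        simp
      · push Not at hT
        have h7 : ∀ i, T i j0 = Mx S P (w i) ((Fintype.equivFin (Ph D)).symm (s i j0)).1 := by
          intro i
          by_cases hc : v i j0.succ = ((Fintype.equivFin (Ph D)).symm (s i j0)).2.1 ∧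
              v i j0.castSucc = ((Fintype.equivFin (Ph D)).symm (s i j0)).2.2
          · funext l r
            simp only [T, ten]
            rw [if_pos hc, hj0, congrFun hv i]
          · exfalso
            apply hT i
            funext l r
            simp only [T, ten]
            rw [if_neg hc]
            rfl
        have h8 : (List.ofFn (fun i => T i j0)) = List.ofFn (fun i =>
            Mx S P (w i) ((Fintype.equivFin (Ph D)).symm (s i j0)).1) := by
          congr 1
          funext i
          exact h7 i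
        rw [h8]
        obtain ⟨c, hc⟩ := alive_row S P hP n w x hx
          (fun i => ((Fintype.equivFin (Ph D)).symm (s i j0)).1)
        rw [Finset.sum_comm]
        have h9 : ∀ r, ∑ l, x l * g r * (List.ofFn (fun i =>
            Mx S P (w i) ((Fintype.equivFin (Ph D)).symm (s i j0)).1)).prod l r =
            c * (S.run (List.ofFn w) x r * g r) := by
          intro r
          rw [← mul_assoc, ← hc r, Finset.sum_mul]
          refine Finset.sum_congr rfl fun l _ => ?_
          ring
        rw [Finset.sum_congr rfl (fun r _ => h9 r), ← Finset.mul_sum, hg, mul_zero]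
    · refine Finset.sum_eq_zero fun h _ => ?_
      have h3 : φ (bd (h, v)) = 0 := by
        simp only [φ, bd]
        rw [if_neg hv]
      rw [h3, zero_mul]
  have h0 : φ = 0 := hinj (by rw [hφ, map_zero])
  obtain ⟨l, hl⟩ : ∃ l, x l ≠ 0 := by
    by_contra hc
    push Not at hc
    exact hx0 (funext hc)
  obtain ⟨r, hr⟩ : ∃ r, g r ≠ 0 := by
    by_contra hc
    push Not at hc
    exact hg0 (funext hc)
  have h1 := congrFun h0 (fun _ => l, fun _ => r, w, fun _ => l)
  simp only [φ, if_true, Pi.zero_apply, mul_eq_zero] at h1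
  exact h1.elim hl hr

/-! ### Otherwise the square is injective -/

/-- the contraction of a boundary vector with one matrix per row -/
noncomputable def Phi {n : ℕ} (F : (Fin n → Fin D) → (Fin n → Fin D) → ℂ)
    (X : Fin n → Matrix (Fin D) (Fin D) ℂ) : ℂ :=
  ∑ L, ∑ R, F L R * ∏ j, X j (L j) (R j)

theorem phi_update {n : ℕ} (F : (Fin n → Fin D) → (Fin n → Fin D) → ℂ)
    (X : Fin n → Matrix (Fin D) (Fin D) ℂ) (a : Fin n) (Y : Matrix (Fin D) (Fin D) ℂ) :
    Phi F (Function.update X a Y) = ∑ L, ∑ R,
      (F L R * ∏ j ∈ Finset.univ.erase a, X j (L j) (R j)) * Y (L a) (R a) := by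
  unfold Phi
  refine Finset.sum_congr rfl fun L _ => Finset.sum_congr rfl fun R _ => ?_
  rw [← Finset.mul_prod_erase Finset.univ _ (Finset.mem_univ a), Function.update_self]
  have h1 : ∏ j ∈ Finset.univ.erase a, (Function.update X a Y) j (L j) (R j) =
      ∏ j ∈ Finset.univ.erase a, X j (L j) (R j) := by
    refine Finset.prod_congr rfl fun j hj => ?_
    rw [Function.update_of_ne (Finset.ne_of_mem_erase hj)]
  rw [h1]
  ring

/-- elementary matrices -/
def El (l r : Fin D) : Matrix (Fin D) (Fin D) ℂ :=
  Matrix.of fun l' r' => if l' = l ∧ r' = r then 1 else 0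

theorem El_apply (l r l' r' : Fin D) :
    (El l r : Matrix (Fin D) (Fin D) ℂ) l' r' = if l' = l ∧ r' = r then 1 else 0 := rfl

theorem phi_lin {n : ℕ} (F : (Fin n → Fin D) → (Fin n → Fin D) → ℂ)
    (X : Fin n → Matrix (Fin D) (Fin D) ℂ) (a : Fin n) (Y : Matrix (Fin D) (Fin D) ℂ) :
    Phi F (Function.update X a Y) = ∑ l, ∑ r, Phi F (Function.update X a (El l r)) * Y l r := by
  simp only [phi_update, El_apply]
  have h1 : ∀ l r : Fin D, (∑ L : Fin n → Fin D, ∑ R : Fin n → Fin D,
      (F L R * ∏ j ∈ Finset.univ.erase a, X j (L j) (R j)) *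
        (if L a = l ∧ R a = r then (1 : ℂ) else 0)) * Y l r =
      ∑ L : Fin n → Fin D, ∑ R : Fin n → Fin D,
      (F L R * ∏ j ∈ Finset.univ.erase a, X j (L j) (R j)) *
        (if L a = l ∧ R a = r then Y l r else 0) := by
    intro l r
    simp only [Finset.sum_mul]
    refine Finset.sum_congr rfl fun L _ => Finset.sum_congr rfl fun R _ => ?_
    split_ifs <;> ring
  rw [Finset.sum_congr rfl (fun l _ => Finset.sum_congr rfl (fun r _ => h1 l r))]
  have h2 : ∀ l : Fin D, ∑ r : Fin D, ∑ L : Fin n → Fin D, ∑ R : Fin n → Fin D,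
      (F L R * ∏ j ∈ Finset.univ.erase a, X j (L j) (R j)) *
        (if L a = l ∧ R a = r then Y l r else 0) =
      ∑ L : Fin n → Fin D, ∑ R : Fin n → Fin D, ∑ r : Fin D,
      (F L R * ∏ j ∈ Finset.univ.erase a, X j (L j) (R j)) *
        (if L a = l ∧ R a = r then Y l r else 0) := by
    intro l
    rw [Finset.sum_comm]
    refine Finset.sum_congr rfl fun L _ => ?_
    exact Finset.sum_comm
  rw [Finset.sum_congr rfl (fun (l : Fin D) _ => h2 l)]
  conv_rhs => rw [Finset.sum_comm]
  refine Finset.sum_congr rfl fun L _ => ?_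
  conv_rhs => rw [Finset.sum_comm]
  refine Finset.sum_congr rfl fun R _ => ?_
  rw [Finset.sum_eq_single (L a)]
  · rw [Finset.sum_eq_single (R a)]
    · simp
    · intro b _ hb
      rw [if_neg (fun h => hb h.2.symm), mul_zero]
    · intro hk
      exact absurd (Finset.mem_univ _) hk
  · intro b _ hb
    refine Finset.sum_eq_zero fun r _ => ?_
    rw [if_neg (fun h => hb h.1.symm), mul_zero]
  · intro hk
    exact absurd (Finset.mem_univ _) hk

theorem inj_of (hP : ∀ u x, P u x = 0 ↔ x ∈ S.K u) (hK : ∀ u, ∃ x, x ∉ S.K u) {n : ℕ}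
    (hn : 1 ≤ n) (h : ∀ (w : Fin n → Fin D) (x : Fin D → ℂ), S.Alive (List.ofFn w) x → x = 0) :
    InjectiveSquare (ten S P) n := by
  unfold InjectiveSquare
  rw [← LinearMap.ker_eq_bot, LinearMap.ker_eq_bot']
  intro φ hφ
  funext b
  obtain ⟨L0, R0, U, B⟩ := b
  let v0 : Fin n → Fin (n + 1) → Fin D := fun i j => if j = 0 then B i else U i
  have hv1 : (fun i => v0 i (Fin.last n)) = U := by
    funext i
    have : Fin.last n ≠ 0 := by
      intro h0
      have := congrArg Fin.val h0
      simp at this
      omega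
    simp [v0, this]
  have hv2 : (fun i => v0 i 0) = B := by
    funext i
    simp [v0]
  let F : (Fin n → Fin D) → (Fin n → Fin D) → ℂ := fun L R => φ (L, R, U, B)
  have key : ∀ o : Fin n → Fin n → Option (Fin D × Fin D),
      Phi F (fun j : Fin n => (List.ofFn (fun i : Fin n => Mx S P (v0 i j.succ) (o i j))).prod) =
        0 := by
    intro o
    let s : Fin n → Fin n → Fin (Fintype.card (Ph D)) := fun i j =>
      (Fintype.equivFin (Ph D)) ((o i j, v0 i j.succ, v0 i j.castSucc) : Ph D)
    have h1 : ∑ e : Edges D n, φ (bd e) * weight (ten S P) s e = 0 := congrFun hφ s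
    rw [Fintype.sum_prod_type, Finset.sum_comm, Finset.sum_eq_single v0] at h1
    · have h2 := path_sum_rows F (fun (i j : Fin n) => Mx S P (v0 i j.succ) (o i j))
      unfold Phi
      rw [← h2, ← h1]
      refine Finset.sum_congr rfl fun h _ => ?_
      congr 1
      · simp only [F, bd]
        rw [hv1, hv2]
      · unfold weight
        refine Finset.prod_congr rfl fun i _ => Finset.prod_congr rfl fun j _ => ?_
        simp only [ten, s, Equiv.symm_apply_apply]
        simp
    · intro v _ hv
      refine Finset.sum_eq_zero fun h _ => ?_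
      have h3 : weight (ten S P) s (h, v) = 0 := by
        by_contra hw
        apply hv
        have h4 : ∀ i j : Fin n, v i j.succ = v0 i j.succ ∧ v i j.castSucc = v0 i j.castSucc := by
          intro i j
          unfold weight at hw
          have h5 := Finset.prod_ne_zero_iff.1 hw i (Finset.mem_univ _)
          rw [Finset.prod_ne_zero_iff] at h5
          have h6 := h5 j (Finset.mem_univ _)
          simp only [ten, s, Equiv.symm_apply_apply] at h6
          by_contra hc
          rw [if_neg hc] at h6
          exact h6 rfl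
        funext i j
        induction j using Fin.cases with
        | zero => exact (h4 i ⟨0, hn⟩).2
        | succ j => exact (h4 i j).1
      rw [h3, mul_zero]
    · intro hk
      exact absurd (Finset.mem_univ _) hk
  have all : ∀ A : Finset (Fin n), ∀ X : Fin n → Matrix (Fin D) (Fin D) ℂ,
      (∀ j, j ∉ A → ∃ o : Fin n → Option (Fin D × Fin D),
        X j = (List.ofFn (fun i => Mx S P (v0 i j.succ) (o i))).prod) → Phi F X = 0 := by
    intro A
    induction A using Finset.induction_on with
    | empty =>
      intro X hX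
      have h1 := fun j => hX j (Finset.notMem_empty j)
      choose o ho using h1
      have h2 := key (fun i j => o j i)
      rw [← h2]
      congr 1
      funext j
      exact ho j
    | insert a A ha ih =>
      intro X hX
      have h1 : ∀ r, (fun l => Phi F (Function.update X a (El l r))) = 0 := by
        intro r
        refine h (fun i => v0 i a.succ) _ ?_
        refine row S P hP hK n (fun i => v0 i a.succ)
          (fun l r => Phi F (Function.update X a (El l r))) (fun o => ?_) r
        rw [← phi_lin F X a]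
        refine ih _ fun j hj => ?_
        by_cases hja : j = a
        · subst hja
          exact ⟨o, by rw [Function.update_self]⟩
        · rw [Function.update_of_ne hja]
          exact hX j (by
            rw [Finset.mem_insert]
            push Not
            exact ⟨hja, hj⟩)
      have h2 := phi_lin F X a (X a)
      rw [Function.update_eq_self] at h2
      rw [h2]
      refine Finset.sum_eq_zero fun l _ => Finset.sum_eq_zero fun r _ => ?_
      have h3 := congrFun (h1 r) l
      simp only [Pi.zero_apply] at h3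
      rw [h3, zero_mul]
  have h1 := all Finset.univ (fun j l r => if l = L0 j ∧ r = R0 j then 1 else 0)
    (fun j hj => absurd (Finset.mem_univ _) hj)
  unfold Phi at h1
  rw [Finset.sum_eq_single L0, Finset.sum_eq_single R0] at h1
  · simpa [F] using h1
  · intro R _ hR
    obtain ⟨j, hj⟩ : ∃ j, R j ≠ R0 j := by
      by_contra hc
      push Not at hc
      exact hR (funext hc)
    rw [Finset.prod_eq_zero (Finset.mem_univ j) (if_neg (fun hh => hj hh.2)), mul_zero]
  · intro hk
    exact absurd (Finset.mem_univ _) hk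
  · intro L _ hL
    obtain ⟨j, hj⟩ : ∃ j, L j ≠ L0 j := by
      by_contra hc
      push Not at hc
      exact hL (funext hc)
    refine Finset.sum_eq_zero fun R _ => ?_
    rw [Finset.prod_eq_zero (Finset.mem_univ j) (if_neg (fun hh => hj hh.1)), mul_zero]
  · intro hk
    exact absurd (Finset.mem_univ _) hk

end Pool.Agent.P8H43.NT
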